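import Pool.Agent.Helper42.QD.Stmts

namespace Pool.Agent.Helper42.QD

open VD

namespace C2X

variable {D k : Type} [DivisionRing D] [Field k] {c : VD D k}

theorem Th (h : ℕ) {m : ℤ} {y : D} (hy : c.P m y) : c.P (m + h) (c.T ^ (h : ℤ) * y) := by
  have h1 := P_mul (P_self (c := c) (x := c.T ^ (h : ℤ))) hy
  rw [v_T_zpow] at h1
  exact P_mono (by omega) h1

theorem Th' (h : ℕ) {m : ℤ} {y : D} (hy : c.P m y) : c.P (m + h) (y * c.T ^ (h : ℤ)) := by
  have h1 := P_mul hy (P_self (c := c) (x := c.T ^ (h : ℤ)))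
  rw [v_T_zpow] at h1
  exact P_mono (by omega) h1

theorem P_of_r (h : ℕ) {y : D} (hy : c.P (-h) y) (hr : c.r (c.T ^ (h : ℤ) * y) = 0) :
    c.P (1 - h) y := by
  have h0 : c.P 0 (c.T ^ (h : ℤ) * y) := P_mono (by omega) (Th h hy)
  have h1 := (r_zero' h0).1 hr
  have h2 := P_of_mul_left (T_zpow_ne _) h1
  rw [v_T_zpow] at h2
  exact h2

theorem conj_res (h : ℕ) (hs : c.sg ^ h = 1) {z : D} (hz : c.P 0 z) :
    c.r (c.T ^ (h : ℤ) * z * (c.T ^ (h : ℤ))⁻¹) = c.r z := by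
  rw [r_T_zpow _ hz, zpow_natCast, hs]
  rfl

theorem swap (h : ℕ) (z y : D) : c.T ^ (h : ℤ) * (z * y) =
    (c.T ^ (h : ℤ) * z * (c.T ^ (h : ℤ))⁻¹) * (c.T ^ (h : ℤ) * y) := by
  have h0 := T_zpow_ne (c := c) (h : ℤ)
  simp only [mul_assoc]
  rw [inv_mul_cancel_left₀ h0]

/-- Moving a power of `T` from the right to the left. -/
theorem r_right (h : ℕ) (hs : c.sg ^ h = 1) {y : D} (hy : c.P (-h) y) :
    c.r (y * c.T ^ (h : ℤ)) = c.r (c.T ^ (h : ℤ) * y) := by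
  have h0 := T_zpow_ne (c := c) (h : ℤ)
  have h1 : c.P 0 (y * c.T ^ (h : ℤ)) := P_mono (by omega) (Th' h hy)
  rw [← conj_res h hs h1, ← mul_assoc, mul_inv_cancel_right₀ h0]

theorem r_left (h : ℕ) (hs : c.sg ^ h = 1) {z y : D} (hz : c.P 0 z) (hy : c.P (-h) y) :
    c.r (c.T ^ (h : ℤ) * (z * y)) = c.r z * c.r (c.T ^ (h : ℤ) * y) := by
  rw [swap, c.r_mul _ _ (P_conj (T_zpow_ne _) hz) (P_mono (by omega) (Th h hy)), conj_res h hs hz]

theorem r_rt (h : ℕ) {z y : D} (hz : c.P 0 z) (hy : c.P (-h) y) :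
    c.r (c.T ^ (h : ℤ) * (y * z)) = c.r (c.T ^ (h : ℤ) * y) * c.r z := by
  rw [← mul_assoc, c.r_mul _ _ (P_mono (by omega) (Th h hy)) hz]

theorem r_ad (h : ℕ) {z y : D} (hz : c.P (-h) z) (hy : c.P (-h) y) :
    c.r (c.T ^ (h : ℤ) * (z + y)) = c.r (c.T ^ (h : ℤ) * z) + c.r (c.T ^ (h : ℤ) * y) := by
  rw [mul_add, c.r_add _ _ (P_mono (by omega) (Th h hz)) (P_mono (by omega) (Th h hy))]

theorem r_sb (h : ℕ) {z y : D} (hz : c.P (-h) z) (hy : c.P (-h) y) :
    c.r (c.T ^ (h : ℤ) * (z - y)) = c.r (c.T ^ (h : ℤ) * z) - c.r (c.T ^ (h : ℤ) * y) := by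
  rw [mul_sub, r_sub (P_mono (by omega) (Th h hz)) (P_mono (by omega) (Th h hy))]

theorem r_x (h : ℕ) {x : D} (hx : c.P (1 - h) (x - c.T ^ (-(h : ℤ)))) :
    c.P (-h) x ∧ c.r (c.T ^ (h : ℤ) * x) = 1 := by
  have h0 : c.P (-h) (c.T ^ (-(h : ℤ))) := Or.inr (by rw [v_T_zpow])
  have h1 : c.P (-h) x := by
    have := P_add (P_mono (by omega) hx) h0
    rwa [sub_add_cancel] at this
  refine ⟨h1, ?_⟩
  have h2 : c.P 1 (c.T ^ (h : ℤ) * (x - c.T ^ (-(h : ℤ)))) := P_mono (by omega) (Th h hx)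
  rw [mul_sub, ← zpow_add₀ c.T_ne, add_neg_cancel, zpow_zero] at h2
  rw [(r_congr (P_mono (by omega) (Th h h1)) P_one).2 h2, c.r_one]

theorem sg_fix {a : k} (ha : c.sg a = a) (n : ℤ) : (c.sg ^ n) a = a := by
  have h : ∀ m : ℕ, (c.sg ^ m) a = a := by
    intro m
    induction m with
    | zero => rfl
    | succ m ih =>
      rw [pow_succ]
      change (c.sg ^ m) (c.sg a) = a
      rw [ha, ih]
  obtain ⟨m, rfl | rfl⟩ := n.eq_nat_or_neg
  · rw [zpow_natCast, h]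
  · rw [zpow_neg, zpow_natCast]
    change (c.sg ^ m).symm a = a
    rw [RingEquiv.symm_apply_eq, h]

/-- The element `- T ^ (-h) r` is central modulo `P ^ (1 - h)`. -/
theorem central (h : ℕ) (hs : c.sg ^ h = 1) {z : D} (hz : c.P 0 z) (hf : c.sg (c.r z) = c.r z)
    {y : D} (hy : y ≠ 0) :
    c.P (1 - h) (y * (-(c.T ^ (-(h : ℤ)) * z)) * y⁻¹ - (-(c.T ^ (-(h : ℤ)) * z))) := by
  have h0 : c.P (-h) (c.T ^ (-(h : ℤ)) * z) := by
    have := P_mul (P_self (c := c) (x := c.T ^ (-(h : ℤ)))) hz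
    rw [v_T_zpow] at this
    exact P_mono (by omega) this
  have e1 : y * (-(c.T ^ (-(h : ℤ)) * z)) * y⁻¹ - (-(c.T ^ (-(h : ℤ)) * z)) =
      -(y * (c.T ^ (-(h : ℤ)) * z) * y⁻¹ - c.T ^ (-(h : ℤ)) * z) := by
    noncomm_ring
  rw [e1]
  refine P_neg (P_of_r h (P_sub (P_conj hy h0) h0) ?_)
  rw [r_sb h (P_conj hy h0) h0]
  obtain ⟨u, hu, hu0, hyu⟩ := exists_unit (c := c) hy
  have hu1 : c.P 0 u := Or.inr hu0.ge
  have hu2 : c.P 0 u⁻¹ := Or.inr (by rw [v_inv hu, hu0]; simp)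
  have hT := T_zpow_ne (c := c) (h : ℤ)
  have e2 : c.T ^ (h : ℤ) * (c.T ^ (-(h : ℤ)) * z) = z := by
    rw [← mul_assoc, ← zpow_add₀ c.T_ne, add_neg_cancel, zpow_zero, one_mul]
  have hcm : c.T ^ (h : ℤ) * c.T ^ (c.v y) = c.T ^ (c.v y) * c.T ^ (h : ℤ) := by
    rw [← zpow_add₀ c.T_ne, ← zpow_add₀ c.T_ne, add_comm]
  have e3 : c.T ^ (h : ℤ) * (y * (c.T ^ (-(h : ℤ)) * z) * y⁻¹) =
      c.T ^ (c.v y) * ((c.T ^ (h : ℤ) * u * (c.T ^ (h : ℤ))⁻¹) * z * u⁻¹) * (c.T ^ (c.v y))⁻¹ := by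
    have : y⁻¹ = u⁻¹ * (c.T ^ (c.v y))⁻¹ := by
      conv_lhs => rw [hyu]
      rw [mul_inv_rev]
    rw [this]
    have e4 : y * (c.T ^ (-(h : ℤ)) * z) = c.T ^ (c.v y) * (u * ((c.T ^ (h : ℤ))⁻¹ * z)) := by
      conv_lhs => rw [hyu]
      rw [zpow_neg, mul_assoc]
    rw [e4]
    calc c.T ^ (h : ℤ) * (c.T ^ (c.v y) * (u * ((c.T ^ (h : ℤ))⁻¹ * z)) *
          (u⁻¹ * (c.T ^ (c.v y))⁻¹))
        = (c.T ^ (h : ℤ) * c.T ^ (c.v y)) * (u * ((c.T ^ (h : ℤ))⁻¹ * z)) *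
          (u⁻¹ * (c.T ^ (c.v y))⁻¹) := by simp only [mul_assoc]
      _ = _ := by rw [hcm]; simp only [mul_assoc]
  have hcz : c.P 0 (c.T ^ (h : ℤ) * u * (c.T ^ (h : ℤ))⁻¹) := P_conj hT hu1
  have hcz2 : c.P 0 ((c.T ^ (h : ℤ) * u * (c.T ^ (h : ℤ))⁻¹) * z) := P_mul' hcz hz (by omega)
  rw [e2, e3, r_T_zpow _ (P_mul' hcz2 hu2 (by omega)), c.r_mul _ _ hcz2 hu2, c.r_mul _ _ hcz hz,
    conj_res h hs hu1, r_inv hu hu0]
  have e5 : c.r u * c.r z * (c.r u)⁻¹ = c.r z := by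
    have := r_ne_zero hu hu0
    field_simp
  rw [e5, sg_fix hf, sub_self]

end C2X

open C2X in
theorem st_C2 (h1 : ST_OM) (h2 : ST_C2A) (h3 : ST_ALK2) (h4 : ST_EIG) (h5 : ST_DIAG)
    (h6 : ST_TW) : ST_C2 := by
  intro D k _ _ _ c h hh hI hs hev htw R f hfix
  by_contra hf
  have h0 : 0 < h := by omega
  obtain ⟨oh, hoh⟩ := h1 D k c R h f h0 hf hfix
  obtain ⟨x, B, g, hx, hB, hg, hty, hb, hw⟩ := h2 D k c R h f oh hh hs hf hfix hoh
  obtain ⟨r1, hr1⟩ := h3 k c.sg hev _ _ hw hb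
  obtain ⟨hxP, hrx⟩ := r_x h hx
  have hohP : c.P (-h) oh := hoh.1
  generalize hwd : c.r (c.T ^ (h : ℤ) * oh) = w at *
  generalize hbd : c.r (c.T ^ (h : ℤ) * B) = b at *
  have root : ∀ z, c.P 0 z → c.r z * c.r z = w * c.r z + b → c.P (1 - h) (B + z * oh - z * x * z) := by
    intro z hz hzr
    have p1 : c.P (-h) (z * oh) := P_mul' hz hohP (by omega)
    have p2 : c.P (-h) (z * x) := P_mul' hz hxP (by omega)
    have p3 : c.P (-h) (z * x * z) := P_mul' p2 hz (by omega)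
    refine P_of_r h (P_sub (P_add hB p1) p3) ?_
    rw [r_sb h (P_add hB p1) p3, r_ad h hB p1, r_left h hs hz hohP, r_rt h hz p2,
      r_left h hs hz hxP, hrx, hwd, hbd, mul_one, hzr]
    ring
  by_cases hne : r1 = w - r1
  · -- double root
    have hw2 : w = r1 + r1 := by
      have := congrArg (fun t => t + r1) hne
      simp only [sub_add_cancel] at this
      exact this.symm
    have hb2 : b = -(r1 * r1) := by
      have : b = r1 * r1 - w * r1 := by rw [hr1]; ring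
      rw [this, hw2]; ring
    have hfx : c.sg r1 = r1 := by
      have e1 : c.sg r1 * c.sg r1 = w * c.sg r1 + b := by
        rw [← map_mul, hr1, map_add, map_mul, hw, hb]
      have e2 : (c.sg r1 - r1) * (c.sg r1 - r1) = 0 := by
        have : (c.sg r1 - r1) * (c.sg r1 - r1) =
            c.sg r1 * c.sg r1 - (r1 + r1) * c.sg r1 + r1 * r1 := by ring
        rw [this, e1, hb2, hw2]
        ring
      have e3 := mul_self_eq_zero.1 e2
      exact sub_eq_zero.1 e3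
    obtain ⟨z, hz, hzr⟩ := c.r_surj r1
    have hz' : c.P 0 z := hz
    have heP : c.P (-h) (c.T ^ (-(h : ℤ)) * z) := by
      have := P_mul (P_self (c := c) (x := c.T ^ (-(h : ℤ)))) hz'
      rw [v_T_zpow] at this
      exact P_mono (by omega) this
    have hre : c.r (c.T ^ (h : ℤ) * (c.T ^ (-(h : ℤ)) * z)) = r1 := by
      rw [← mul_assoc, ← zpow_add₀ c.T_ne, add_neg_cancel, zpow_zero, one_mul, hzr]
    obtain ⟨lam, hl1, hl2⟩ := htw h (-(c.T ^ (-(h : ℤ)) * z)) h0 (P_neg heP)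
      (fun y hy => central h hs hz' (by rw [hzr, hfx]) hy)
    obtain ⟨R', Phi, hP1, hP2⟩ := h6 D k c R h (-(c.T ^ (-(h : ℤ)) * z)) lam h0 (P_neg heP) hl1 hl2
    have hT1 := hP2 _ g hty
    have hT2 := Ty_KO (KO_nn hz') hT1
    have hxz : c.P (-h) (x * z) := P_mul' hxP hz' (by omega)
    have hzx : c.P (-h) (z * x) := P_mul' hz' hxP (by omega)
    have hT3 : Ty R' h !![0, 0; x, 0] (R'.rho (nn z) (Phi g)) := by
      refine Ty_congr ?_ hT2
      generalize hE : c.T ^ (-(h : ℤ)) * z = E at *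
      have a00 : c.P (1 - h) (-E + z * x) := by
        refine P_of_r h (P_add (P_neg heP) hzx) ?_
        rw [r_ad h (P_neg heP) hzx, r_left h hs hz' hxP, hrx, mul_neg,
          r_neg (P_mono (by omega) (Th h heP)), hre, hzr, mul_one, neg_add_cancel]
      have a11 : c.P (1 - h) (oh + -E - x * z) := by
        refine P_of_r h (P_sub (P_add hohP (P_neg heP)) hxz) ?_
        rw [r_sb h (P_add hohP (P_neg heP)) hxz, r_ad h hohP (P_neg heP), r_rt h hz' hxP, hrx,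
          mul_neg, r_neg (P_mono (by omega) (Th h heP)), hre, hzr, one_mul, hwd, hw2]
        ring
      have a01 : c.P (1 - h) (B + z * (oh + -E)) := by
        have q1 : c.P (-h) (oh + -E) := P_add hohP (P_neg heP)
        have q2 : c.P (-h) (z * (oh + -E)) := P_mul' hz' q1 (by omega)
        refine P_of_r h (P_add hB q2) ?_
        rw [r_ad h hB q2, r_left h hs hz' q1, r_ad h hohP (P_neg heP),
          mul_neg, r_neg (P_mono (by omega) (Th h heP)), hre, hzr, hwd, hbd, hw2, hb2]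
        ring
      have hinv : ((nn z)⁻¹ : G2 D).val = !![1, -z; 0, 1] := rfl
      have hM : (nn z).val * !![(!![0, B; x, oh] : Matrix (Fin 2) (Fin 2) D) 0 0 + -E,
          (!![0, B; x, oh] : Matrix (Fin 2) (Fin 2) D) 0 1;
          (!![0, B; x, oh] : Matrix (Fin 2) (Fin 2) D) 1 0,
          (!![0, B; x, oh] : Matrix (Fin 2) (Fin 2) D) 1 1 + -E] * ((nn z)⁻¹ : G2 D).val =
          !![-E + z * x, (-E + z * x) * (-z) + (B + z * (oh + -E)); x, oh + -E - x * z] := by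
        rw [hinv, nn_val]
        refine Matrix.ext fun i j => ?_
        fin_cases i <;> fin_cases j
        · simp [Matrix.mul_apply, Fin.sum_univ_two]
        · simp [Matrix.mul_apply, Fin.sum_univ_two]
        · simp [Matrix.mul_apply, Fin.sum_univ_two]
        · simp [Matrix.mul_apply, Fin.sum_univ_two]
          abel
      rw [hM]
      intro i j
      fin_cases i <;> fin_cases j
      · simpa using a00
      · have : c.P (1 - h) ((-E + z * x) * (-z) + (B + z * (oh + -E))) :=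
          P_add (P_mul' a00 (P_neg hz') (by omega)) a01
        simpa using this
      · simp [c.P_zero]
      · simpa using a11
    have hT4 : Ty R' h !![0, x; 0, 0] (R'.rho (ww D) (R'.rho (nn z) (Phi g))) := by
      have := Ty_KO KO_ww hT3
      have hM : (ww D).val * !![0, 0; x, 0] * ((ww D)⁻¹ : G2 D).val = !![0, x; 0, 0] := by
        have hinv : ((ww D)⁻¹ : G2 D).val = !![0, 1; 1, 0] := rfl
        rw [hinv, ww_val]
        refine Matrix.ext fun i j => ?_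
        fin_cases i <;> fin_cases j <;> simp [Matrix.mul_apply, Fin.sum_univ_two]
      rwa [hM] at this
    have hfin := hI R' (R'.rho (ww D) (R'.rho (nn z) (Phi g))) ?_
    · exact rho_ne (rho_ne (hP1 g hg)) hfin
    · intro m hm
      have hm1 : KK c h m := by
        rw [KI_iff] at hm
        rw [KK_iff]
        exact ⟨hm.1, hm.2.1, P_mono (by omega) hm.2.2.1, hm.2.2.2⟩
      rw [hT4 m hm1]
      have e1 : ((!![0, x; 0, 0] : Matrix (Fin 2) (Fin 2) D) * (m.val - 1)).trace =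
          x * (m.val - 1) 1 0 := by
        generalize m.val - 1 = N
        rw [Matrix.trace_fin_two, Matrix.mul_apply, Matrix.mul_apply, Fin.sum_univ_two,
          Fin.sum_univ_two]
        simp
      rw [e1, c.psi_P _ (P_mul' hxP hm.2.2.1 (by omega)), one_smul]
  · -- distinct roots
    have hr2 : (w - r1) * (w - r1) = w * (w - r1) + b := by
      have : (w - r1) * (w - r1) = w * w - w * r1 - w * r1 + r1 * r1 := by ring
      rw [this, hr1]; ring
    obtain ⟨z1, hz1, hz1r⟩ := c.r_surj r1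
    obtain ⟨z2, hz2, hz2r⟩ := c.r_surj (w - r1)
    have hd : ¬ c.P 1 (z1 - z2) := by
      intro hc
      have := (r_congr hz1 hz2).2 hc
      rw [hz1r, hz2r] at this
      exact hne this
    obtain ⟨g', hg'⟩ := h4 D k c R h oh x B z1 z2 g h0 hohP hxP hB hz1 hz2 hd
      (root z1 hz1 (by rw [hz1r]; exact hr1)) (root z2 hz2 (by rw [hz2r]; exact hr2)) hty
    have hnz : r1 + r1 - w ≠ 0 := by
      intro hc
      apply hne
      have : r1 = w - r1 := by
        have := sub_eq_zero.1 hc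
        rw [← this]; ring
      exact this
    obtain ⟨z3, hz3, hz3r⟩ := c.r_surj (-(r1 + r1 - w)⁻¹)
    have hz3' : c.P 0 z3 := hz3
    have hm0 : c.P (-h) (z1 * x) := P_mul' hz1 hxP (by omega)
    have hm1 : c.P (-h) (z2 * x) := P_mul' hz2 hxP (by omega)
    have hH : ∃ z, c.P h z ∧ c.P 1 (z1 * x * z + z * (z1 * x) - oh * z + 1) := by
      refine ⟨c.T ^ (h : ℤ) * z3, P_mono (by omega) (Th h hz3'), ?_⟩
      have q1 : z1 * x * (c.T ^ (h : ℤ) * z3) = (z1 * x * c.T ^ (h : ℤ)) * z3 := by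
        simp only [mul_assoc]
      have q2 : c.T ^ (h : ℤ) * z3 * (z1 * x) = c.T ^ (h : ℤ) * (z3 * (z1 * x)) := by
        simp only [mul_assoc]
      have q3 : oh * (c.T ^ (h : ℤ) * z3) = (oh * c.T ^ (h : ℤ)) * z3 := by
        simp only [mul_assoc]
      rw [q1, q2, q3]
      have s1 : c.P 0 (z1 * x * c.T ^ (h : ℤ)) := P_mono (by omega) (Th' h hm0)
      have s2 : c.P 0 (oh * c.T ^ (h : ℤ)) := P_mono (by omega) (Th' h hohP)
      have s3 : c.P 0 (z1 * x * c.T ^ (h : ℤ) * z3) := P_mul' s1 hz3' (by omega)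
      have s4 : c.P 0 (oh * c.T ^ (h : ℤ) * z3) := P_mul' s2 hz3' (by omega)
      have s5 : c.P (-h) (z3 * (z1 * x)) := P_mul' hz3' hm0 (by omega)
      have s6 : c.P 0 (c.T ^ (h : ℤ) * (z3 * (z1 * x))) := P_mono (by omega) (Th h s5)
      rw [← r_zero' (P_add (P_sub (P_add s3 s6) s4) P_one),
        c.r_add _ _ (P_sub (P_add s3 s6) s4) P_one, r_sub (P_add s3 s6) s4, c.r_add _ _ s3 s6,
        c.r_mul _ _ s1 hz3', c.r_mul _ _ s2 hz3', r_right h hs hm0, r_right h hs hohP,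
        r_left h hs hz3' hm0, r_left h hs hz1 hxP, hrx, hwd, hz1r, hz3r, c.r_one]
      have hn := mul_inv_cancel₀ hnz
      linear_combination -hn
    have := h5 D k c R h oh (z1 * x) (z2 * x) (R.rho g' g) h0 hoh hm0 hm1 hH hg'
    exact rho_ne hg this

end Pool.Agent.Helper42.QD
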